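import Pool.Agent.Helper76.LG.Ldc

/-! VTYPE WITH THE EXPORT: the leaf over full coordinates, `La` being typically a function of (base, V, grid cell of the
coordinates `σ`, an index with a bounded number of values). -/

set_option autoImplicit false

namespace Pool.Agent.Helper76.LG

open Finset Filter Topology Matrix Metric Pool.Agent.Helper69.RK Pool.Agent.Helper31.EC Pool.Agent.Helper31.EC.Sp
open Pool.Agent.Helper40.EL Pool.Agent.Helper89.LX Pool.Agent.Helper3.LF Pool.Agent.Helper84.MT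
open Pool.Agent.Helper63.FRT
open Pool.Agent.Helper76.RL (AlgR algR_const algR_mono rc ev)
open Pool.Agent.Helper76.DIM
open Pool.Agent.Helper85.OA

noncomputable section

variable {S : Sp} {M v D : ℕ}

open Classical in
/-- the coordinate `p` is the parameter `j` -/
def pinσ (σ : Fin v → Fin M) (p : Fin M) : Option (Fin v) := if h : ∃ i, σ i = p then some h.choose else none

lemma pinσ_some {σ : Fin v → Fin M} (hσ : Function.Injective σ) (j : Fin v) : pinσ σ (σ j) = some j := by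
  have h : ∃ i, σ i = σ j := ⟨j, rfl⟩
  unfold pinσ
  rw [dif_pos h, hσ h.choose_spec]

lemma pinσ_eq {σ : Fin v → Fin M} {p : Fin M} {j : Fin v} (h : pinσ σ p = some j) : σ j = p := by
  unfold pinσ at h
  split_ifs at h with h1
  have h2 := Option.some.inj h
  rw [← h2]
  exact h1.choose_spec

lemma pinσ_none {σ : Fin v → Fin M} {p : Fin M} (h : pinσ σ p = none) : ∀ i, σ i ≠ p := by
  intro i hi
  unfold pinσ at h
  rw [dif_pos ⟨i, hi⟩] at h
  exact Option.some_ne_none _ h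

/-- the codes of the cut charts -/
abbrev Kc (M v D : ℕ) : Type :=
  Prop × (Fin M → (Mon (v + 1) D × (Fin (v + 1) → Fin (D + 1))) × Option (Fin (D * D)))

/-- CUTS GIVE CHARTS WITH CODES -/
theorem chF_of_cut {V : ∀ k, Setoid (S.F k).Ω} {Q : S.VV M} {σ : Fin v → Fin M} {b : ℝ} (hb : 0 < b) (hD : 1 ≤ D)
    {g : Fin M → ∀ k, (S.F k).Ω → Matrix (Mon (v + 1) D) (Mon (v + 1) D) ℝ} (x : CutF V Q σ b D g) :
    ChF V Q (pck Q σ) (fun _ _ => pinσ σ) b D (Kc M v D) where
  full := x.full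
  pq := Eventually.of_forall fun k ω _ p j h => by
    show Q.v k ω p = Q.v k ω (σ j)
    rw [pinσ_eq h]
  pm := Eventually.of_forall fun k ω ω' _ _ _ _ => rfl
  ch := by
    intro ε δ hε hε1 hδ
    obtain ⟨K1, hK1, hQ⟩ := Q.bd
    have hK01 : ∀ᶠ k in UF, 1 ≤ K1 k + 1 := by
      filter_upwards [hK1.1] with k hk
      linarith
    obtain ⟨code, A, H, hAT, hA, hms, hH⟩ := exists_codes hb hD x hε hε1 (show 0 < δ / 4 by linarith) hK01 (by
      filter_upwards [hQ] with k hk ω hω i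
      have := hk ω hω i
      linarith)
    have hS2 : S.Sub (fun _ => (D : ℝ)) := S.Sub_const (by positivity)
    refine ⟨fun k => 3 * (K1 k + 1), code, A, H, ?_, hAT, ?_, ?_, hH⟩
    · exact (S.Sub_const (show (0 : ℝ) ≤ 3 by norm_num)).mul (hK1.add (S.Sub_const zero_le_one))
    · filter_upwards [hS2.eventually_le (show 0 < δ / 2 by linarith)] with k a1 ω _ h p hp
      refine (hA k ω h p (pinσ_none hp)).trans ?_
      rw [← mul_assoc]
      apply mul_le_mul_of_nonneg_right _ (by positivity)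
      have e1 : (2 : ℝ) ^ (δ * (S.F k).n) = 2 ^ (δ / 2 * (S.F k).n) * 2 ^ (2 * (δ / 4) * (S.F k).n) := by
        rw [← Real.rpow_add (by norm_num)]
        congr 1; ring
      rw [e1]
      exact mul_le_mul_of_nonneg_right (by linarith) (by positivity)
    · filter_upwards [hms] with k hk ω ω' h1 h2 h3 h4 h5 h6 p hp
      exact (hk ω ω' h1 h2 h3 h4 h5 h6).2 p (pinσ_none hp)

instance [Nonempty (Mon (v + 1) D)] : Nonempty (Kc M v D) :=
  ⟨(True, fun _ => ((Classical.arbitrary _, fun _ => 0), none))⟩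

/-- the number of values of the index -/
def nL (M v D : ℕ) : ℕ := nC (Kc M v D)

/-- the leaf with its export -/
structure VLeafX (V : ∀ k, Setoid (S.F k).Ω) (Q : S.VV M) (σ : Fin v → Fin M) (b : ℝ) (hb : 0 < b) (g L : ℕ)
    (La : ∀ k, Setoid (S.F k).Ω) (Y : S.VV v) (N : ℕ → ℝ) (c : ∀ k, (S.F k).Ω → Fin v → ℤ)
    (β : ∀ k, (S.F k).Ω → Fin L) (A : ∀ k, (S.F k).Ω → Prop)
    (f : Leaf (S.chg S.tr b hb) (Q.chg S.tr b hb) (Pool.Agent.Helper84.MT.lin g)) : Prop
    extends VLeaf V Q σ b hb g La Y N c f where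
  /-- `c` is the grid cell -/
  fl : ∀ᶠ k in UF, ∀ ω j, c k ω j = ⌊N k * Q.v k ω (σ j)⌋
  /-- typically ... -/
  tA : Typ A
  /-- ... the leaf partition is known to `V`, the grid cell and the bounded index -/
  idx : ∀ k ω ω', A k ω → A k ω' → V k ω ω' → c k ω = c k ω' → β k ω = β k ω' → La k ω ω'

/-- VTYPE WITH THE EXPORT -/
theorem vtype' {V : ∀ k, Setoid (S.F k).Ω} {Q : S.VV M} {σ : Fin v → Fin M} {b : ℝ} (hb : 0 < b) (hb1 : b ≤ 1)
    (hD : 1 ≤ D) {g : Fin M → ∀ k, (S.F k).Ω → Matrix (Mon (v + 1) D) (Mon (v + 1) D) ℝ} (x : CutF V Q σ b D g) :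
    ∃ (La : ∀ k, Setoid (S.F k).Ω) (Y : S.VV v) (N : ℕ → ℝ) (c : ∀ k, (S.F k).Ω → Fin v → ℤ)
      (β : ∀ k, (S.F k).Ω → Fin (nL M v D)) (A : ∀ k, (S.F k).Ω → Prop)
      (f : Leaf (S.chg S.tr b hb) (Q.chg S.tr b hb) (Pool.Agent.Helper84.MT.lin (1 * cA M (M + M) D))),
      VLeafX V Q σ b hb (1 * cA M (M + M) D) (nL M v D) La Y N c β A f := by
  have hne : Nonempty (Mon (v + 1) D) := ⟨Mon.zero _ _⟩
  have hvM : v ≤ M := by
    have := Fintype.card_le_of_injective σ x.inj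
    rwa [Fintype.card_fin, Fintype.card_fin] at this
  obtain ⟨La, P, N, c, β, A, f, y⟩ := pleaf hb hb1 hvM hD (chF_of_cut hb hD x)
  refine ⟨La, P, N, c, β, A, f, ⟨⟨y.he, y.eLa, y.par, ?_, y.le, y.vb, y.ent, y.N1, y.subN, y.eP, y.uP, y.msc⟩,
    y.fl, y.tA, y.idx⟩⟩
  filter_upwards [y.chart] with k hk ω z j
  exact hk ω z (σ j) j (pinσ_some x.inj j)

end

end Pool.Agent.Helper76.LG
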