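import Pool.Agent.Helper76.LG.Rta

/-! ROOTS GIVE LEAVES: if the coordinates of the point are, up to `2 ^ ((η - b) n)`, exact real roots of polynomials of
bounded degree, known to `V`, at parameters which are full over `V`, then (a refinement of entropy `o(n)` of) `V` is a leaf
at the resolution `b`. -/

set_option autoImplicit false

namespace Pool.Agent.Helper76.LG

open Finset Filter Topology Matrix Metric Pool.Agent.Helper69.RK Pool.Agent.Helper31.EC Pool.Agent.Helper31.EC.Sp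
open Pool.Agent.Helper40.EL Pool.Agent.Helper89.LX Pool.Agent.Helper3.LF Pool.Agent.Helper84.MT
open Pool.Agent.Helper63.FRT
open Pool.Agent.Helper76.RL (cB cB_one AlgR algR_mono rc)
open Pool.Agent.Helper76.DIM

noncomputable section

variable {S : Sp} {M e D : ℕ}

/-- ROOTS over full parameters -/
structure RootF (V : ∀ k, Setoid (S.F k).Ω) (Q : S.VV M) (Y : S.VV e)
    (pin : ∀ k, (S.F k).Ω → Fin M → Option (Fin e)) (b : ℝ) (D : ℕ)
    (f : Fin M → ∀ k, (S.F k).Ω → MvPolynomial (Fin (e + 1)) ℝ) (z : Fin M → ∀ k, (S.F k).Ω → ℝ) : Prop where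
  full : Tendsto (fun k => h (fc (Setoid.ker (Y.cellv 1 k))) (fc (V k)) / (S.F k).n) UF (𝓝 e)
  pq : ∀ᶠ k in UF, ∀ ω, (S.F k).μ ω ≠ 0 → ∀ p j, pin k ω p = some j → Q.v k ω p = Y.v k ω j
  pm : ∀ᶠ k in UF, ∀ ω ω', (S.F k).μ ω ≠ 0 → (S.F k).μ ω' ≠ 0 → (S.F k).Z ω ω' → V k ω ω' → pin k ω = pin k ω'
  deg : ∀ p, ∀ᶠ k in UF, ∀ ω, (S.F k).μ ω ≠ 0 → (f p k ω).totalDegree ≤ D
  ms : ∀ p, ∀ᶠ k in UF, ∀ ω ω', (S.F k).μ ω ≠ 0 → (S.F k).μ ω' ≠ 0 → (S.F k).Z ω ω' → V k ω ω' → f p k ω = f p k ω'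
  rt : ∀ p, ∀ η : ℝ, 0 < η → Typ (fun k ω => pin k ω p = none → f p k ω ≠ 0 ∧
    MvPolynomial.eval (Fin.cons (z p k ω) (Y.v k ω) : Fin (e + 1) → ℝ) (f p k ω) = 0 ∧
      |Q.v k ω p - z p k ω| ≤ 2 ^ (η * (S.F k).n) * 2 ^ (-(b * (S.F k).n)))

/-- the codes of the roots -/
abbrev Kr (M D : ℕ) : Type := Fin M → Option (Fin (D * D))

/-- ROOTS GIVE CHARTS WITH CODES -/
theorem chF_of_root {V : ∀ k, Setoid (S.F k).Ω} {Q : S.VV M} {Y : S.VV e}
    {pin : ∀ k, (S.F k).Ω → Fin M → Option (Fin e)} {b : ℝ} (hb : 0 < b) (hD : 1 ≤ D)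
    {f : Fin M → ∀ k, (S.F k).Ω → MvPolynomial (Fin (e + 1)) ℝ} {z : Fin M → ∀ k, (S.F k).Ω → ℝ}
    (x : RootF V Q Y pin b D f z) : ChF V Q Y pin b D (Kr M D) where
  full := x.full
  pq := x.pq
  pm := x.pm
  ch := by
    intro ε δ hε hε1 hδ
    obtain ⟨K1, hK1, hQ⟩ := Q.bd
    have hK01 : ∀ᶠ k in UF, 1 ≤ K1 k + 1 := by
      filter_upwards [hK1.1] with k hk
      linarith
    have hfull' : Tendsto (fun k => h (fc (Setoid.ker (celm Y (fun _ => 1) k))) (fc (V k)) /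
        (S.F k).n) UF (𝓝 (∑ _i : Fin e, (1 : ℝ))) := by
      have e1 : ∑ _i : Fin e, (1 : ℝ) = e := by simp
      rw [e1]
      refine x.full.congr fun k => ?_
      rw [celm_const]
    choose idx hidx using fun p => lgr Y V (fun _ => 1) hε (fun _ => hε1) hfull' hD (z p) hK01 (f p) (x.deg p) (x.ms p)
    set H : ∀ k, (S.F k).Ω → Fin M → (Fin e → ℂ) → ℂ := fun k ω p =>
      Gr D (K1 k + 1) (mgr S ε k) (f p k ω) (gcell Y ε k ω) (idx p k ω) with hH
    set A : ∀ k, (S.F k).Ω → Prop := fun k ω => ∀ p, pin k ω p = none → ‖((Q.v k ω p : ℝ) : ℂ) - H k ω p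
        (rc fun j => ngr S ε k * Y.v k ω j - gcell Y ε k ω j)‖ ≤
          2 ^ (δ * (S.F k).n) * 2 ^ (-(b * (S.F k).n)) with hA
    refine ⟨fun k => 3 * (K1 k + 1), fun k ω p => idx p k ω, A, H, ?_, ?_, ?_, ?_, ?_⟩
    · exact (S.Sub_const (show (0 : ℝ) ≤ 3 by norm_num)).mul (hK1.add (S.Sub_const zero_le_one))
    · apply Pool.Agent.Helper63.MT.typ_all
      intro p
      refine ((hidx p).and (x.rt p (min δ b) (lt_min hδ hb))).mono ?_
      filter_upwards [hQ] with k hk ω hω h0 hp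
      obtain ⟨h1, h2⟩ := h0
      obtain ⟨h3, h4, h5⟩ := h2 hp
      have hn := (S.F k).pos
      have h6 : (2 : ℝ) ^ (min δ b * (S.F k).n) * 2 ^ (-(b * (S.F k).n)) ≤ 1 := by
        rw [← Real.rpow_add (by norm_num)]
        apply Real.rpow_le_one_of_one_le_of_nonpos (by norm_num)
        have : min δ b ≤ b := min_le_right _ _
        nlinarith
      have h7 : |z p k ω| ≤ K1 k + 1 := by
        have h8 := hk ω hω p
        have h9 : |z p k ω| ≤ |Q.v k ω p| + |Q.v k ω p - z p k ω| := by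
          have h10 := abs_sub (Q.v k ω p) (Q.v k ω p - z p k ω)
          rwa [sub_sub_cancel] at h10
        linarith
      have h8 := h1 h7 h3 h4
      show ‖((Q.v k ω p : ℝ) : ℂ) - Gr D (K1 k + 1) (mgr S ε k) (f p k ω) (gcell Y ε k ω) (idx p k ω)
        (rc fun j => ngr S ε k * Y.v k ω j - gcell Y ε k ω j)‖ ≤ _
      rw [← h8, ← Complex.ofReal_sub, Complex.norm_real, Real.norm_eq_abs]
      refine h5.trans (mul_le_mul_of_nonneg_right ?_ (by positivity))
      apply Real.rpow_le_rpow_of_exponent_le (by norm_num)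
      exact mul_le_mul_of_nonneg_right (min_le_left _ _) hn.le
    · exact Eventually.of_forall fun k ω _ h => h
    · have hms : ∀ᶠ k in UF, ∀ p, ∀ ω ω', (S.F k).μ ω ≠ 0 → (S.F k).μ ω' ≠ 0 → (S.F k).Z ω ω' →
          V k ω ω' → f p k ω = f p k ω' := by
        rw [eventually_all]
        exact x.ms
      filter_upwards [hms] with k hk ω ω' h1 h2 h3 h4 e1 e2 p _
      have e3 : idx p k ω = idx p k ω' := congrFun e2 p
      simp only [hH]
      rw [hk p ω ω' h1 h2 h3 h4, e1, e3]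
    · have hcB := cB_one e D
      have hS3 : S.Sub (fun _ => 25 * cB e D ^ 2) := S.Sub_const (by positivity)
      filter_upwards [hK01, hS3.eventually_le hε] with k a3 a6 ω p
      have hNgt := ngr_gt S ε k
      rw [dl_inv] at hNgt
      have hmgr : ((mgr S ε k + 1 : ℕ) : ℝ) = ngr S ε k := by
        push_cast
        rfl
      have hrad : (5 : ℝ) ≤ √(((mgr S ε k + 1 : ℕ)) : ℝ) / cB e D := by
        rw [hmgr, le_div_iff₀ (by linarith)]
        apply Real.le_sqrt_of_sq_le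
        have e1 : (5 * cB e D) ^ 2 = 25 * cB e D ^ 2 := by ring
        rw [e1]
        linarith
      obtain ⟨h1, h2, h3⟩ := Gr_bd D hD (show 0 < K1 k + 1 by linarith) (mgr S ε k) (f p k ω) (gcell Y ε k ω) (idx p k ω)
      exact ⟨h1.mono (ball_subset_ball hrad), fun y hy => h2 y (ball_subset_ball hrad hy), algR_mono hrad h3⟩

end

end Pool.Agent.Helper76.LG
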