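import Pool.Agent.Helper76.DIM.Vty

/-! LEAVES FROM FULL PARAMETERS, the finite level. The parameters `y` are full over `V`; some coordinates of the point
(those with `pin = some j`) ARE parameters, the others are given by charts. -/

set_option autoImplicit false

namespace Pool.Agent.Helper76.LG

open Finset Filter Topology Matrix Metric Pool.Agent.Helper69.RK Pool.Agent.Helper31.EC Pool.Agent.Helper31.EC.Sp
open Pool.Agent.Helper40.EL Pool.Agent.Helper89.LX Pool.Agent.Helper3.LF Pool.Agent.Helper84.MT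
open Pool.Agent.Helper63.FRT
open Pool.Agent.Helper76.RL (AlgR algR_const algR_mono rc ev)
open Pool.Agent.Helper76.DIM

noncomputable section

variable {S : Sp} {M e D L : ℕ}

/-- finite data of the leaf: code, grid, cell, chart, bounded index, good event -/
structure PD (F : FSp) (M e L : ℕ) where
  R : Setoid F.Ω
  N : ℝ
  c : F.Ω → Fin e → ℤ
  G : F.Ω → Fin M → (Fin e → ℂ) → ℂ
  β : F.Ω → Fin L
  A : F.Ω → Prop

/-- the parameters -/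
def PD.Y {F : FSp} (d : PD F M e L) (y : F.Ω → Fin e → ℝ) : F.Ω → Fin e → ℝ :=
  fun ω j => d.N * y ω j - d.c ω j

/-- quality of the data -/
structure PQ (F : FSp) (V : Setoid F.Ω) (q : F.Ω → Fin M → ℝ) (y : F.Ω → Fin e → ℝ)
    (pin : F.Ω → Fin M → Option (Fin e)) (b : ℝ) (D : ℕ) (η : ℝ) (d : PD F M e L) : Prop where
  fn : ∀ ω ω', F.μ ω ≠ 0 → F.μ ω' ≠ 0 → F.Z ω ω' → V ω ω' → d.R ω ω' → d.G ω = d.G ω' ∧ d.c ω = d.c ω'
  N1 : 1 ≤ d.N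
  Nη : d.N ≤ 2 ^ (η * F.n)
  cf : ∀ ω j, d.c ω j = ⌊d.N * y ω j⌋
  dG : ∀ ω p, DifferentiableOn ℂ (d.G ω p) (ball 0 5)
  aG : ∀ ω p, AlgR D 5 (d.G ω p)
  bG : ∀ ω, F.μ ω ≠ 0 → ∀ p, ∀ y ∈ ball (0 : Fin e → ℂ) 5, ‖d.G ω p y‖ ≤ 2 ^ (η * F.n)
  sG : ∀ ω p j, pin ω p = some j → d.G ω p = fun y => ((d.c ω j : ℂ) + y j) / (d.N : ℂ)
  pt : ∀ ω, F.μ ω ≠ 0 → ∀ p, ‖((q ω p : ℝ) : ℂ) - d.G ω p (rc (d.Y y ω))‖ ≤ 2 ^ (η * F.n) * 2 ^ (-(b * F.n))
  en : F.e d.R (V ⊓ F.Z) ≤ η * F.n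
  nv : ∀ ω, F.μ ω ≠ 0 → (Sp.nv F d.R ω : ℝ) ≤ 2 ^ (cV M e * F.n)
  ful : (e * b - η) * F.n ≤ F.e (Setoid.ker fun ω => cell (2 ^ (-(b * F.n))) (d.Y y ω)) (V ⊓ d.R ⊓ F.Z)
  cd : ∀ ω ω', d.A ω → d.A ω' → d.c ω = d.c ω' → d.β ω = d.β ω' → d.R ω ω'
  mA : mass (res F.μ (fun ω => ¬ d.A ω)) ≤ η

lemma PQ.uY {F : FSp} {V : Setoid F.Ω} {q : F.Ω → Fin M → ℝ} {y : F.Ω → Fin e → ℝ}
    {pin : F.Ω → Fin M → Option (Fin e)} {b η : ℝ} {d : PD F M e L} (x : PQ F V q y pin b D η d) (ω : F.Ω) (j : Fin e) :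
    0 ≤ d.Y y ω j ∧ d.Y y ω j ≤ 1 := by
  have h0 := x.cf ω j
  have h1 := Int.floor_le (d.N * y ω j)
  have h2 := Int.lt_floor_add_one (d.N * y ω j)
  unfold PD.Y
  rw [h0]
  constructor <;> linarith

open Classical in
/-- the chart -/
def chP (pn : Fin M → Option (Fin e)) (N : ℝ) (c : Fin e → ℤ) (A : Prop) (H : Fin M → (Fin e → ℂ) → ℂ) (x : Fin M → ℝ) :
    Fin M → (Fin e → ℂ) → ℂ :=
  fun p => (pn p).elim (if A then H p else fun _ => ((x p : ℝ) : ℂ)) (fun j y => ((c j : ℂ) + y j) / (N : ℂ))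

lemma chP_some {pn : Fin M → Option (Fin e)} (N : ℝ) (c : Fin e → ℤ) (A : Prop)
    (H : Fin M → (Fin e → ℂ) → ℂ) (x : Fin M → ℝ) {p : Fin M} {j : Fin e} (h : pn p = some j) :
    chP pn N c A H x p = fun y => ((c j : ℂ) + y j) / (N : ℂ) := by
  unfold chP
  rw [h]
  rfl

lemma chP_A {pn : Fin M → Option (Fin e)} (N : ℝ) (c : Fin e → ℤ) {A : Prop} (hA : A)
    (H : Fin M → (Fin e → ℂ) → ℂ) (x : Fin M → ℝ) {p : Fin M} (h : pn p = none) :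
    chP pn N c A H x p = H p := by
  unfold chP
  rw [h, Option.elim_none, if_pos hA]

lemma chP_B {pn : Fin M → Option (Fin e)} (N : ℝ) (c : Fin e → ℤ) {A : Prop} (hA : ¬ A)
    (H : Fin M → (Fin e → ℂ) → ℂ) (x : Fin M → ℝ) {p : Fin M} (h : pn p = none) :
    chP pn N c A H x p = fun _ => ((x p : ℝ) : ℂ) := by
  unfold chP
  rw [h, Option.elim_none, if_neg hA]

/-! ### the data of a level -/

section fin

variable {F : FSp} {V : Setoid F.Ω} {q : F.Ω → Fin M → ℝ} {y : F.Ω → Fin e → ℝ} {pin : F.Ω → Fin M → Option (Fin e)}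
  {b η N K B : ℝ}

/-- grid cells -/
def gy (N : ℝ) (y : F.Ω → Fin e → ℝ) : F.Ω → Fin e → ℤ := fun ω i => ⌊N * y ω i⌋

/-- the data -/
def mkP (q : F.Ω → Fin M → ℝ) (y : F.Ω → Fin e → ℝ) (pin : F.Ω → Fin M → Option (Fin e)) (b N : ℝ) (β : F.Ω → Fin L)
    (A : F.Ω → Prop) (H : F.Ω → Fin M → (Fin e → ℂ) → ℂ) : PD F M e L :=
  ⟨Setoid.ker (gy N y) ⊓ (Setoid.ker β ⊓ Setoid.ker (bdc F b A q)), N, gy N y,
    fun ω => chP (pin ω) N (gy N y ω) (A ω) (H ω) (fun p => 2 ^ (-(b * F.n)) * bdc F b A q ω p), β, A⟩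

variable (β : F.Ω → Fin L) (A : F.Ω → Prop) (H : F.Ω → Fin M → (Fin e → ℂ) → ℂ)

lemma mkP_G (ω : F.Ω) : (mkP q y pin b N β A H).G ω =
    chP (pin ω) N (gy N y ω) (A ω) (H ω) (fun p => 2 ^ (-(b * F.n)) * bdc F b A q ω p) := rfl

lemma mkP_A {ω : F.Ω} (h : A ω) {p : Fin M} (hp : pin ω p = none) : (mkP q y pin b N β A H).G ω p = H ω p := by
  rw [mkP_G]
  exact chP_A _ _ h _ _ hp

lemma mkP_B {ω : F.Ω} (h : ¬ A ω) {p : Fin M} (hp : pin ω p = none) :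
    (mkP q y pin b N β A H).G ω p = fun _ => ((2 ^ (-(b * F.n)) * (⌊q ω p / 2 ^ (-(b * F.n))⌋ : ℝ) : ℝ) : ℂ) := by
  have h1 : (mkP q y pin b N β A H).G ω p = fun _ => ((2 ^ (-(b * F.n)) * bdc F b A q ω p : ℝ) : ℂ) := by
    rw [mkP_G]
    exact chP_B _ _ h _ _ hp
  have h2 : bdc F b A q ω p = ⌊q ω p / 2 ^ (-(b * F.n))⌋ := by
    unfold bdc
    rw [if_neg h]
    rfl
  rw [h1, h2]

lemma mkP_σ {ω : F.Ω} {p : Fin M} {i : Fin e} (hp : pin ω p = some i) :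
    (mkP q y pin b N β A H).G ω p = fun z => (((⌊N * y ω i⌋ : ℤ) : ℂ) + z i) / (N : ℂ) := by
  rw [mkP_G]
  exact chP_some _ _ _ _ _ hp

lemma cases_pin (ω : F.Ω) (p : Fin M) : (∃ i, pin ω p = some i) ∨ pin ω p = none := by
  rcases h : pin ω p with _ | i
  · exact Or.inr rfl
  · exact Or.inl ⟨i, rfl⟩

lemma mkP_fn (hpin : ∀ ω ω', F.μ ω ≠ 0 → F.μ ω' ≠ 0 → F.Z ω ω' → V ω ω' → pin ω = pin ω')
    (hms : ∀ ω ω', F.μ ω ≠ 0 → F.μ ω' ≠ 0 → F.Z ω ω' → V ω ω' → gy N y ω = gy N y ω' → β ω = β ω' →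
      (A ω ↔ A ω') ∧ ∀ p, pin ω p = none → H ω p = H ω' p)
    (ω ω' : F.Ω) (h1 : F.μ ω ≠ 0) (h2 : F.μ ω' ≠ 0) (h3 : F.Z ω ω') (h4 : V ω ω')
    (h5 : (mkP q y pin b N β A H).R ω ω') :
    (mkP q y pin b N β A H).G ω = (mkP q y pin b N β A H).G ω' ∧
      (mkP q y pin b N β A H).c ω = (mkP q y pin b N β A H).c ω' := by
  have e1 : gy N y ω = gy N y ω' := h5.1
  have e2 : β ω = β ω' := h5.2.1
  have e3 : bdc F b A q ω = bdc F b A q ω' := h5.2.2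
  have e0 := hpin ω ω' h1 h2 h3 h4
  obtain ⟨e4, e5⟩ := hms ω ω' h1 h2 h3 h4 e1 e2
  refine ⟨?_, e1⟩
  funext p
  rcases cases_pin (pin := pin) ω p with ⟨i, hp⟩ | hp
  · have hp' : pin ω' p = some i := by rw [← e0]; exact hp
    rw [mkP_σ β A H hp, mkP_σ β A H hp']
    have e6 : ⌊N * y ω i⌋ = ⌊N * y ω' i⌋ := congrFun e1 i
    rw [e6]
  · have hp' : pin ω' p = none := by rw [← e0]; exact hp
    by_cases hA : A ω
    · have hA' : A ω' := e4.mp hA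
      rw [mkP_A β A H hA hp, mkP_A β A H hA' hp']
      exact e5 p hp
    · have hA' : ¬ A ω' := fun h => hA (e4.mpr h)
      rw [mkP_B β A H hA hp, mkP_B β A H hA' hp']
      have e6 : ⌊q ω p / 2 ^ (-(b * F.n))⌋ = ⌊q ω' p / 2 ^ (-(b * F.n))⌋ := by
        have e7 := congrFun e3 p
        unfold bdc at e7
        rw [if_neg hA, if_neg hA'] at e7
        exact e7
      rw [e6]

lemma mkP_dG (hH : ∀ ω p, DifferentiableOn ℂ (H ω p) (ball 0 5)) (ω : F.Ω) (p : Fin M) :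
    DifferentiableOn ℂ ((mkP q y pin b N β A H).G ω p) (ball 0 5) := by
  rcases cases_pin (pin := pin) ω p with ⟨i, hp⟩ | hp
  · rw [mkP_σ β A H hp]
    fun_prop
  · by_cases hA : A ω
    · rw [mkP_A β A H hA hp]
      exact hH ω p
    · rw [mkP_B β A H hA hp]
      exact differentiableOn_const _

lemma mkP_aG (hD : 1 ≤ D) (hH : ∀ ω p, AlgR D 5 (H ω p)) (ω : F.Ω) (p : Fin M) :
    AlgR D 5 ((mkP q y pin b N β A H).G ω p) := by
  rcases cases_pin (pin := pin) ω p with ⟨i, hp⟩ | hp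
  · rw [mkP_σ β A H hp]
    exact algR_lin hD _ _ _ _
  · by_cases hA : A ω
    · rw [mkP_A β A H hA hp]
      exact hH ω p
    · rw [mkP_B β A H hA hp]
      exact algR_const hD _ _

lemma mkP_bG (hb : 0 ≤ b) (N1 : 1 ≤ N) (hq : ∀ ω, F.μ ω ≠ 0 → ∀ i, |q ω i| ≤ K)
    (hy : ∀ ω, F.μ ω ≠ 0 → ∀ i, |y ω i| ≤ K)
    (hH : ∀ ω p, ∀ z ∈ ball (0 : Fin e → ℂ) 5, ‖H ω p z‖ ≤ B) (hK0 : 0 ≤ K) (hB0 : 0 ≤ B) (ω : F.Ω) (hω : F.μ ω ≠ 0)
    (p : Fin M) (z : Fin e → ℂ) (hz : z ∈ ball (0 : Fin e → ℂ) 5) :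
    ‖(mkP q y pin b N β A H).G ω p z‖ ≤ B + K + 6 := by
  rcases cases_pin (pin := pin) ω p with ⟨i, hp⟩ | hp
  · rw [mkP_σ β A H hp]
    have hN0 : 0 < N := by linarith
    show ‖(((⌊N * y ω i⌋ : ℤ) : ℂ) + z i) / ((N : ℝ) : ℂ)‖ ≤ _
    rw [norm_div, Complex.norm_real, Real.norm_eq_abs, abs_of_pos hN0, div_le_iff₀ hN0]
    have h1 : ‖z i‖ ≤ 5 := by
      rw [mem_ball_zero_iff] at hz
      exact (norm_le_pi_norm z i).trans hz.le
    have h2 : ‖((⌊N * y ω i⌋ : ℤ) : ℂ)‖ ≤ N * K + 1 := by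
      have h4 : ((⌊N * y ω i⌋ : ℤ) : ℂ) = (((⌊N * y ω i⌋ : ℤ) : ℝ) : ℂ) := by push_cast; rfl
      rw [h4, Complex.norm_real, Real.norm_eq_abs]
      have h5 := Int.floor_le (N * y ω i)
      have h6 := Int.lt_floor_add_one (N * y ω i)
      have h7 : |N * y ω i| ≤ N * K := by
        rw [abs_mul, abs_of_pos hN0]
        exact mul_le_mul_of_nonneg_left (hy ω hω _) hN0.le
      rw [abs_le] at h7 ⊢
      constructor <;> linarith
    refine (norm_add_le _ _).trans ?_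
    nlinarith
  · by_cases hA : A ω
    · rw [mkP_A β A H hA hp]
      refine (hH ω p z hz).trans ?_
      linarith
    · rw [mkP_B β A H hA hp, Complex.norm_real, Real.norm_eq_abs]
      have h1 := near_floor (q ω p) (2 ^ (-(b * F.n))) (by positivity)
      have h2 := dl_le_one F hb
      have h3 := hq ω hω p
      have h4 : |2 ^ (-(b * F.n)) * (⌊q ω p / 2 ^ (-(b * F.n))⌋ : ℝ)| ≤ |q ω p| +
          |q ω p - 2 ^ (-(b * F.n)) * (⌊q ω p / 2 ^ (-(b * F.n))⌋ : ℝ)| := by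
        have h5 := abs_sub (q ω p) (q ω p - 2 ^ (-(b * F.n)) * (⌊q ω p / 2 ^ (-(b * F.n))⌋ : ℝ))
        rwa [sub_sub_cancel] at h5
      linarith

lemma mkP_pt (N1 : 1 ≤ N) (hB : 1 ≤ B) (hqy : ∀ ω, F.μ ω ≠ 0 → ∀ p j, pin ω p = some j → q ω p = y ω j)
    (hA' : ∀ ω, F.μ ω ≠ 0 → A ω → ∀ p, pin ω p = none →
      ‖((q ω p : ℝ) : ℂ) - H ω p (rc ((mkP q y pin b N β A H).Y y ω))‖ ≤ B * 2 ^ (-(b * F.n)))
    (ω : F.Ω) (hω : F.μ ω ≠ 0) (p : Fin M) :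
    ‖((q ω p : ℝ) : ℂ) - (mkP q y pin b N β A H).G ω p (rc ((mkP q y pin b N β A H).Y y ω))‖ ≤ B * 2 ^ (-(b * F.n)) := by
  have hδ : (0 : ℝ) < 2 ^ (-(b * F.n)) := by positivity
  rcases cases_pin (pin := pin) ω p with ⟨i, hp⟩ | hp
  · rw [mkP_σ β A H hp, hqy ω hω p i hp]
    have hN0 : 0 < N := by linarith
    have e1 : ((y ω i : ℝ) : ℂ) - (((⌊N * y ω i⌋ : ℤ) : ℂ) + rc ((mkP q y pin b N β A H).Y y ω) i) /
        ((N : ℝ) : ℂ) = 0 := by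
      have h1 : rc ((mkP q y pin b N β A H).Y y ω) i = ((N * y ω i - (⌊N * y ω i⌋ : ℝ) : ℝ) : ℂ) := rfl
      rw [h1]
      have h2 : ((N : ℝ) : ℂ) ≠ 0 := by exact_mod_cast hN0.ne'
      push_cast
      field_simp
      ring
    show ‖((y ω i : ℝ) : ℂ) - (((⌊N * y ω i⌋ : ℤ) : ℂ) + rc ((mkP q y pin b N β A H).Y y ω) i) /
        ((N : ℝ) : ℂ)‖ ≤ _
    rw [e1, norm_zero]
    positivity
  · by_cases hA : A ω
    · rw [mkP_A β A H hA hp]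
      exact hA' ω hω hA p hp
    · rw [mkP_B β A H hA hp, ← Complex.ofReal_sub, Complex.norm_real, Real.norm_eq_abs]
      exact (near_floor (q ω p) _ hδ).trans (le_mul_of_one_le_left hδ.le hB)

lemma mkP_ful (N1 : 1 ≤ N) (hb1 : b ≤ 1) {t : ℝ} (ht : F.e (mkP q y pin b N β A H).R (V ⊓ F.Z) ≤ t) :
    F.e (Setoid.ker fun ω => cell (2 ^ (-F.n)) (y ω)) (V ⊓ F.Z) - t - e * ((1 - b) * F.n + 2) ≤
      F.e (Setoid.ker fun ω => cell (2 ^ (-(b * F.n))) ((mkP q y pin b N β A H).Y y ω))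
        (V ⊓ (mkP q y pin b N β A H).R ⊓ F.Z) := by
  set d := mkP q y pin b N β A H with hd
  set C : Setoid F.Ω := Setoid.ker fun ω => cell (2 ^ (-(b * F.n))) (d.Y y ω) with hC
  set X : Setoid F.Ω := Setoid.ker fun ω => cell (2 ^ (-F.n)) (y ω) with hX
  have hN0 : 0 < N := by linarith
  have hn := F.pos
  have h1 := F.e_triangle X d.R (V ⊓ F.Z)
  have h2 := F.e_triangle X C (d.R ⊓ (V ⊓ F.Z))
  have e1 : F.e C (d.R ⊓ (V ⊓ F.Z)) = F.e C (V ⊓ d.R ⊓ F.Z) := by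
    congr 1
    ac_rfl
  rw [e1] at h2
  have h3 : F.e X (C ⊓ (d.R ⊓ (V ⊓ F.Z))) ≤ e * ((1 - b) * F.n + 2) := by
    have h4 := F.e_int_le (fun ω => cell (2 ^ (-F.n)) (y ω)) (C ⊓ (d.R ⊓ (V ⊓ F.Z)))
      (2 ^ ((1 - b) * F.n) + 1) (by positivity) (fun ω ω' _ _ h5 i => by
        have h6 : cell (2 ^ (-(b * F.n))) (d.Y y ω) = cell (2 ^ (-(b * F.n))) (d.Y y ω') := h5.1
        have h7 : ⌊N * y ω i⌋ = ⌊N * y ω' i⌋ := congrFun h5.2.1.1 i
        have h8 : |d.Y y ω i - d.Y y ω' i| ≤ 2 ^ (-(b * F.n)) :=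
          abs_sub_le_of_floor_eq (by positivity) (congrFun h6 i)
        have h9 : d.Y y ω i - d.Y y ω' i = N * (y ω i - y ω' i) := by
          show N * y ω i - ((⌊N * y ω i⌋ : ℤ) : ℝ) - (N * y ω' i - ((⌊N * y ω' i⌋ : ℤ) : ℝ)) =
            N * (y ω i - y ω' i)
          rw [h7]
          ring
        rw [h9, abs_mul, abs_of_pos hN0] at h8
        have h10 : |y ω i - y ω' i| ≤ 2 ^ ((1 - b) * F.n) * 2 ^ (-F.n) := by
          have h11 : (2 : ℝ) ^ (-(b * F.n)) = 2 ^ ((1 - b) * F.n) * 2 ^ (-F.n) := by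
            rw [← Real.rpow_add (by norm_num)]
            congr 1
            ring
          rw [← h11]
          have := abs_nonneg (y ω i - y ω' i)
          nlinarith
        exact floor_diff (by positivity) h10)
    refine h4.trans ?_
    apply mul_le_mul_of_nonneg_left _ (Nat.cast_nonneg e)
    have h5 : (1 : ℝ) ≤ 2 ^ ((1 - b) * F.n) := by
      apply Real.one_le_rpow (by norm_num)
      apply mul_nonneg _ hn.le
      linarith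
    have h6 : (2 : ℝ) ^ ((1 - b) * F.n) + 1 + 1 ≤ 2 ^ ((1 - b) * F.n + 2) := by
      rw [Real.rpow_add (by norm_num)]
      have : (2 : ℝ) ^ (2 : ℝ) = 4 := by norm_num
      rw [this]
      linarith
    have h7 := Real.logb_le_logb_of_le (b := 2) (by norm_num) (by positivity) h6
    rwa [Real.logb_rpow (by norm_num) (by norm_num)] at h7
  linarith

lemma mkP_cd (ω ω' : F.Ω) (h1 : A ω) (h2 : A ω')
    (h3 : (mkP q y pin b N β A H).c ω = (mkP q y pin b N β A H).c ω') (h4 : β ω = β ω') :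
    (mkP q y pin b N β A H).R ω ω' := by
  refine ⟨h3, h4, ?_⟩
  show bdc F b A q ω = bdc F b A q ω'
  unfold bdc
  rw [if_pos h1, if_pos h2]

end fin

lemma PQ.mono {F : FSp} {V : Setoid F.Ω} {q : F.Ω → Fin M → ℝ} {y : F.Ω → Fin e → ℝ}
    {pin : F.Ω → Fin M → Option (Fin e)} {b : ℝ} {η η' : ℝ} {d : PD F M e L}
    (x : PQ F V q y pin b D η d) (h : η ≤ η') : PQ F V q y pin b D η' d := by
  have hn := F.pos
  have h2 : (2 : ℝ) ^ (η * F.n) ≤ 2 ^ (η' * F.n) := by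
    apply Real.rpow_le_rpow_of_exponent_le (by norm_num)
    exact mul_le_mul_of_nonneg_right h hn.le
  exact ⟨x.fn, x.N1, x.Nη.trans h2, x.cf, x.dG, x.aG, fun ω hω p y hy => (x.bG ω hω p y hy).trans h2, x.sG,
    fun ω hω p => (x.pt ω hω p).trans (mul_le_mul_of_nonneg_right h2 (by positivity)),
    x.en.trans (mul_le_mul_of_nonneg_right h hn.le), x.nv,
    (mul_le_mul_of_nonneg_right (by linarith) hn.le).trans x.ful, x.cd, x.mA.trans h⟩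

end

end Pool.Agent.Helper76.LG
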