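import Pool.Agent.Helper76.LG.Lda

/-! LEAVES FROM FULL PARAMETERS: data of small defects exist as soon as there are charts with codes. -/

set_option autoImplicit false

namespace Pool.Agent.Helper76.LG

open Finset Filter Topology Matrix Metric Pool.Agent.Helper69.RK Pool.Agent.Helper31.EC Pool.Agent.Helper31.EC.Sp
open Pool.Agent.Helper40.EL Pool.Agent.Helper89.LX Pool.Agent.Helper3.LF Pool.Agent.Helper84.MT
open Pool.Agent.Helper63.FRT
open Pool.Agent.Helper76.RL (AlgR algR_const algR_mono rc ev qA qA_ach sub_of ball_sub)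
open Pool.Agent.Helper76.DIM
open Pool.Agent.Helper85.OA
open Pool.Agent.Helper52.SL (cellv_chg)

noncomputable section

variable {S : Sp} {M e D L : ℕ} {κ : Type} [Fintype κ]

/-- CHARTS WITH CODES over full parameters `Y`: at every grid exponent `ε` and accuracy `δ` there are a typical event and
charts, functions of (base, V, grid cell, code in the fixed finite set `κ`), which give the point up to `2 ^ ((δ - b) n)` -/
structure ChF (V : ∀ k, Setoid (S.F k).Ω) (Q : S.VV M) (Y : S.VV e)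
    (pin : ∀ k, (S.F k).Ω → Fin M → Option (Fin e)) (b : ℝ) (D : ℕ) (κ : Type) : Prop where
  full : Tendsto (fun k => h (fc (Setoid.ker (Y.cellv 1 k))) (fc (V k)) / (S.F k).n) UF (𝓝 e)
  pq : ∀ᶠ k in UF, ∀ ω, (S.F k).μ ω ≠ 0 → ∀ p j, pin k ω p = some j → Q.v k ω p = Y.v k ω j
  pm : ∀ᶠ k in UF, ∀ ω ω', (S.F k).μ ω ≠ 0 → (S.F k).μ ω' ≠ 0 → (S.F k).Z ω ω' → V k ω ω' → pin k ω = pin k ω'
  ch : ∀ ε δ : ℝ, 0 < ε → ε ≤ 1 → 0 < δ → ∃ (K0 : ℕ → ℝ) (code : ∀ k, (S.F k).Ω → κ)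
      (A : ∀ k, (S.F k).Ω → Prop) (H : ∀ k, (S.F k).Ω → Fin M → (Fin e → ℂ) → ℂ), S.Sub K0 ∧ Typ A ∧
      (∀ᶠ k in UF, ∀ ω, (S.F k).μ ω ≠ 0 → A k ω → ∀ p, pin k ω p = none → ‖((Q.v k ω p : ℝ) : ℂ) - H k ω p
        (rc fun j => ngr S ε k * Y.v k ω j - gcell Y ε k ω j)‖ ≤ 2 ^ (δ * (S.F k).n) * 2 ^ (-(b * (S.F k).n))) ∧
      (∀ᶠ k in UF, ∀ ω ω', (S.F k).μ ω ≠ 0 → (S.F k).μ ω' ≠ 0 → (S.F k).Z ω ω' → V k ω ω' →
        gcell Y ε k ω = gcell Y ε k ω' → code k ω = code k ω' → ∀ p, pin k ω p = none → H k ω p = H k ω' p) ∧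
      ∀ᶠ k in UF, ∀ ω p, DifferentiableOn ℂ (H k ω p) (ball 0 5) ∧
        (∀ y ∈ ball (0 : Fin e → ℂ) 5, ‖H k ω p y‖ ≤ K0 k) ∧ AlgR D 5 (H k ω p)

/-- the number of codes -/
def nC (κ : Type) [Fintype κ] : ℕ := by
  classical
  exact Fintype.card (Prop × κ)

/-- the full code -/
def fcd {α : Type} (A : α → Prop) (code : α → κ) : α → Fin (nC κ) := by
  classical
  exact fun ω => Fintype.equivFin (Prop × κ) (A ω, code ω)

lemma fcd_eq {α : Type} {A : α → Prop} {code : α → κ} {ω ω' : α} (h : fcd A code ω = fcd A code ω') :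
    (A ω ↔ A ω') ∧ code ω = code ω' := by
  classical
  unfold fcd at h
  have h1 := (Fintype.equivFin (Prop × κ)).injective h
  refine ⟨?_, congrArg Prod.snd h1⟩
  have h2 : A ω = A ω' := congrArg Prod.fst h1
  rw [h2]

lemma ngr_ev {ε η : ℝ} (hη : 0 < η) (h : ε ≤ η / 8) : ∀ᶠ k in UF, ngr S ε k ≤ 2 ^ (η * (S.F k).n) := by
  have hS : S.Sub (fun _ => (2 : ℝ)) := S.Sub_const zero_le_two
  filter_upwards [hS.eventually_le (show 0 < η / 2 by linarith)] with k hk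
  have hn := (S.F k).pos
  have h1 := ngr_le S ε k
  rw [dl_inv] at h1
  have h2 : (2 : ℝ) ^ (ε * (S.F k).n) ≤ 2 ^ (η / 2 * (S.F k).n) := by
    apply Real.rpow_le_rpow_of_exponent_le (by norm_num)
    nlinarith
  have h3 : (2 : ℝ) ^ (η * (S.F k).n) = 2 ^ (η / 2 * (S.F k).n) * 2 ^ (η / 2 * (S.F k).n) := by
    rw [← Real.rpow_add (by norm_num)]
    congr 1; ring
  rw [h3]
  nlinarith

/-- DATA of quality `η` exist -/
theorem exists_PQ {V : ∀ k, Setoid (S.F k).Ω} {Q : S.VV M} {Y : S.VV e}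
    {pin : ∀ k, (S.F k).Ω → Fin M → Option (Fin e)} {b : ℝ} (hb : 0 < b) (hb1 : b ≤ 1)
    (hD : 1 ≤ D) (x : ChF V Q Y pin b D κ) {η : ℝ} (hη : 0 < η) (hη1 : η ≤ 1) :
    ∀ᶠ k in UF, ∃ d : PD (S.F k) M e (nC κ), PQ (S.F k) (V k) (Q.v k) (Y.v k) (pin k) b D η d := by
  classical
  obtain ⟨K1, hK1, hQ⟩ := Q.bd
  obtain ⟨K2, hK2, hY⟩ := Y.bd
  set ε : ℝ := η / (8 * (e + 1)) with hε
  have hε0 : 0 < ε := by positivity
  have hεη : ε ≤ η / 8 := by
    rw [hε]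
    apply div_le_div_of_nonneg_left hη.le (by norm_num)
    have : (0 : ℝ) ≤ e := Nat.cast_nonneg e
    linarith
  have hε1 : ε ≤ 1 := by linarith
  have hvε : e * ε ≤ η / 8 := by
    rw [hε, mul_div_assoc', div_le_div_iff₀ (by positivity) (by norm_num)]
    nlinarith [(Nat.cast_nonneg e : (0 : ℝ) ≤ e)]
  clear_value ε
  obtain ⟨K0, code, A, H, hK0, hAT, hA, hms, hH⟩ := x.ch ε (η / 8) hε0 hε1 (by linarith)
  set β : ∀ k, (S.F k).Ω → Fin (nC κ) := fun k => fcd (A k) (code k) with hβ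
  have hS1 : S.Sub (fun k => K0 k + (K1 k + K2 k) + 6) := (hK0.add (hK1.add hK2)).add (S.Sub_const (by norm_num))
  have hS5 : S.Sub (fun _ => (Fintype.card (Fin (nC κ)) : ℝ)) := S.Sub_const (by positivity)
  have hful : ∀ᶠ k in UF, (e - η / 8) * (S.F k).n ≤
      (S.F k).e (Setoid.ker (Y.cellv 1 k)) (V k ⊓ (S.F k).Z) := by
    filter_upwards [x.full.eventually (lt_mem_nhds (show (e : ℝ) - η / 8 < e by linarith))] with k hk
    have hn := (S.F k).pos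
    rw [lt_div_iff₀ hn, h_fc] at hk
    exact hk.le
  have hl := S.div_n_tendsto (2 * e)
  have hmA : ∀ᶠ k in UF, mass (res (S.F k).μ (fun ω => ¬ A k ω)) < η := hAT.eventually (gt_mem_nhds hη)
  filter_upwards [hQ, hK1.1, hS1.eventually_le hη, hY, hK2.1, hK0.1,
    hS5.eventually_le one_pos, hms, ent_gcell Y hε0.le (show 0 < η / 8 by linarith),
    ent_bad Q hb.le hAT (show 0 < η / 8 by linarith), ent_fin β V (show 0 < η / 8 by linarith),
    nv_gcell Y hε1, nv_bad Q hb1 A, hful, hl.eventually (gt_mem_nhds (show 0 < η / 8 by linarith)), hH, hA, hmA,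
    x.pq, x.pm, ngr_ev hη hεη]
    with k a1 a2 a4 a5 a6 a7 a8 a9 a10 a11 a12 a13 a14 a15 a16 a17 a18 a19 a20 a21 a22
  have hn := (S.F k).pos
  have hN1 := ngr_one S ε k
  rw [div_lt_iff₀ hn] at a16
  refine ⟨mkP (Q.v k) (Y.v k) (pin k) b (ngr S ε k) (β k) (A k) (H k), ?_⟩
  have h8η : (2 : ℝ) ^ (η / 8 * (S.F k).n) ≤ 2 ^ (η * (S.F k).n) := by
    apply Real.rpow_le_rpow_of_exponent_le (by norm_num)
    nlinarith
  have hen : (S.F k).e (mkP (Q.v k) (Y.v k) (pin k) b (ngr S ε k) (β k) (A k) (H k)).R (V k ⊓ (S.F k).Z) ≤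
      η / 2 * (S.F k).n := by
    have h1 : (S.F k).e (mkP (Q.v k) (Y.v k) (pin k) b (ngr S ε k) (β k) (A k) (H k)).R (V k ⊓ (S.F k).Z) ≤ _ :=
      (S.F k).e_sup_le (Setoid.ker (gcell Y ε k)) (Setoid.ker (β k) ⊓ Setoid.ker (bad Q b A k))
      (V k ⊓ (S.F k).Z)
    have h2 := (S.F k).e_sup_le (Setoid.ker (β k)) (Setoid.ker (bad Q b A k)) (V k ⊓ (S.F k).Z)
    have h3 := a10 (V k ⊓ (S.F k).Z)
    have h4 := a11 (V k ⊓ (S.F k).Z)
    have h5 : e * ε * (S.F k).n ≤ η / 8 * (S.F k).n := mul_le_mul_of_nonneg_right hvε hn.le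
    linarith
  constructor
  · exact mkP_fn (β k) (A k) (H k) a21 fun ω ω' h1 h2 h3 h4 h5 h6 =>
      ⟨(fcd_eq h6).1, a9 ω ω' h1 h2 h3 h4 h5 (fcd_eq h6).2⟩
  · exact hN1
  · exact a22
  · intro ω j
    rfl
  · exact mkP_dG (β k) (A k) (H k) fun ω p => (a17 ω p).1
  · exact mkP_aG (β k) (A k) (H k) hD fun ω p => (a17 ω p).2.2
  · intro ω hω p z hz
    refine (mkP_bG (K := K1 k + K2 k) (B := K0 k) (β k) (A k) (H k) hb.le hN1 (fun ω hω i => (a1 ω hω i).trans (by linarith))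
      (fun ω hω i => (a5 ω hω i).trans (by linarith)) (fun ω p => (a17 ω p).2.1) (by linarith) a7 ω hω p z hz).trans ?_
    linarith
  · intro ω p j hp
    exact mkP_σ (β k) (A k) (H k) hp
  · intro ω hω p
    have hB : (1 : ℝ) ≤ 2 ^ (η * (S.F k).n) := Real.one_le_rpow (by norm_num) (by positivity)
    refine mkP_pt (β k) (A k) (H k) hN1 hB a20 (fun ω hω h p hp => ?_) ω hω p
    refine (a18 ω hω h p hp).trans ?_
    exact mul_le_mul_of_nonneg_right h8η (by positivity)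
  · exact hen.trans (by nlinarith)
  · intro ω hω
    have h4 : (Sp.nv (S.F k) (Setoid.ker (β k)) ω : ℝ) ≤ 2 ^ ((S.F k).n) := by
      refine (nv_fin (β k) ω).trans ?_
      rw [one_mul] at a8
      linarith
    have e1 : (2 : ℝ) ^ (cV M e * (S.F k).n) = 2 ^ (e * (2 * (S.F k).n)) * (2 ^ ((S.F k).n) *
        2 ^ (M * (2 * (S.F k).n))) := by
      rw [← Real.rpow_add (by norm_num), ← Real.rpow_add (by norm_num)]
      congr 1
      unfold cV
      ring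
    rw [e1]
    exact nv_three ω (a13 ω) h4 (a14 ω)
  · have h1 := mkP_ful (β k) (A k) (H k) hN1 hb1 hen
    have e1 : (Setoid.ker fun ω => cell (2 ^ (-(S.F k).n)) (Y.v k ω)) =
        Setoid.ker (Y.cellv 1 k) := by
      have e2 : S.dl 1 k = 2 ^ (-(S.F k).n) := by
        unfold Sp.dl
        rw [one_mul]
      congr 1
      funext ω
      show cell (2 ^ (-(S.F k).n)) _ = cell (S.dl 1 k) _
      rw [e2]
    rw [e1] at h1
    linarith
  · exact fun ω ω' h1 h2 h3 h4 => mkP_cd (β k) (A k) (H k) ω ω' h1 h2 h3 h4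
  · exact a19.le

end

end Pool.Agent.Helper76.LG
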