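import Pool.Agent.Helper76.LG.Ldb

/-! LEAVES FROM FULL PARAMETERS: the leaf. -/

set_option autoImplicit false

namespace Pool.Agent.Helper76.LG

open Finset Filter Topology Matrix Metric Pool.Agent.Helper69.RK Pool.Agent.Helper31.EC Pool.Agent.Helper31.EC.Sp
open Pool.Agent.Helper40.EL Pool.Agent.Helper89.LX Pool.Agent.Helper3.LF Pool.Agent.Helper84.MT
open Pool.Agent.Helper63.FRT
open Pool.Agent.Helper76.RL (AlgR algR_const algR_mono rc ev qA qA_ach sub_of ball_sub)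
open Pool.Agent.Helper76.DIM
open Pool.Agent.Helper85.OA
open Pool.Agent.Helper52.SL (cellv_chg)

noncomputable section

variable {S : Sp} {M e D L : ℕ} {κ : Type} [Fintype κ]

/-- a sequence of data whose defects tend to zero -/
def PSeq (V : ∀ k, Setoid (S.F k).Ω) (Q : S.VV M) (Y : S.VV e) (pin : ∀ k, (S.F k).Ω → Fin M → Option (Fin e)) (b : ℝ)
    (D : ℕ) (d : ∀ k, PD (S.F k) M e L) : Prop :=
  ∀ η : ℝ, 0 < η → ∀ᶠ k in UF, PQ (S.F k) (V k) (Q.v k) (Y.v k) (pin k) b D η (d k)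

/-- there is at least one code -/
lemma nC_pos [Nonempty κ] : 0 < nC κ := by
  classical
  unfold nC
  exact Fintype.card_pos

/-- the trivial data -/
def PD.triv (F : FSp) (M e L : ℕ) (hL : 0 < L) : PD F M e L := ⟨⊤, 1, fun _ _ => 0, fun _ _ _ => 0, fun _ => ⟨0, hL⟩, fun _ => True⟩

theorem exists_pseq [Nonempty κ] {V : ∀ k, Setoid (S.F k).Ω} {Q : S.VV M} {Y : S.VV e}
    {pin : ∀ k, (S.F k).Ω → Fin M → Option (Fin e)} {b : ℝ} (hb : 0 < b) (hb1 : b ≤ 1)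
    (hD : 1 ≤ D) (x : ChF V Q Y pin b D κ) :
    ∃ d : ∀ k, PD (S.F k) M e (nC κ), PSeq V Q Y pin b D d := by
  classical
  have h1 : ∀ i : ℕ, 0 < 1 / ((i : ℝ) + 1) ∧ 1 / ((i : ℝ) + 1) ≤ 1 := by
    intro i
    refine ⟨by positivity, ?_⟩
    rw [div_le_one (by positivity)]
    have : (0 : ℝ) ≤ i := Nat.cast_nonneg i
    linarith
  obtain ⟨y, j, hj, -, hy⟩ := dia' (X := fun k => PD (S.F k) M e (nC κ))
    (fun i k => if h : ∃ z : PD (S.F k) M e (nC κ), PQ (S.F k) (V k) (Q.v k) (Y.v k) (pin k) b D (1 / ((i : ℝ) + 1)) z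
      then h.choose else PD.triv (S.F k) M e (nC κ) nC_pos)
    (fun i k z => PQ (S.F k) (V k) (Q.v k) (Y.v k) (pin k) b D (1 / ((i : ℝ) + 1)) z) (by
      intro i
      filter_upwards [exists_PQ hb hb1 hD x (h1 i).1 (h1 i).2] with k hk
      rw [dif_pos hk]
      exact hk.choose_spec)
  refine ⟨y, fun η hη => ?_⟩
  have h0 : Tendsto (fun k => 1 / ((j k : ℝ) + 1)) UF (𝓝 0) :=
    tendsto_one_div_add_atTop_nhds_zero_nat.comp hj
  filter_upwards [hy, h0.eventually (gt_mem_nhds hη)] with k h2 h3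
  exact h2.mono h3.le

/-- the leaf partition -/
def pLa (V : ∀ k, Setoid (S.F k).Ω) (d : ∀ k, PD (S.F k) M e L) : ∀ k, Setoid (S.F k).Ω := fun k => V k ⊓ (d k).R

namespace PSeq

variable {V : ∀ k, Setoid (S.F k).Ω} {Q : S.VV M} {Y : S.VV e} {pin : ∀ k, (S.F k).Ω → Fin M → Option (Fin e)} {b : ℝ}
  {d : ∀ k, PD (S.F k) M e L}

/-- the parameters -/
def P (x : PSeq V Q Y pin b D d) : S.VV e := ⟨fun k => (d k).Y (Y.v k), by
  refine ⟨fun _ => 1, S.Sub_const zero_le_one, ?_⟩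
  filter_upwards [x 1 one_pos] with k hk ω _ i
  have := hk.uY ω i
  rw [abs_le]
  constructor <;> linarith [this.1, this.2]⟩

lemma subN (x : PSeq V Q Y pin b D d) : S.Sub fun k => (d k).N :=
  sub_of ((x 1 one_pos).mono fun _ h => zero_le_one.trans h.N1) fun η hη => (x η hη).mono fun _ h => h.Nη

/-- a common bound -/
lemma exists_B (x : PSeq V Q Y pin b D d) : ∃ B : ℕ → ℝ, S.Sub B ∧
    (∀ᶠ k in UF, ∀ ω, (S.F k).μ ω ≠ 0 → ∀ p, ∀ y ∈ ball (0 : Fin e → ℂ) 5, ‖(d k).G ω p y‖ ≤ B k) ∧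
    ∀ᶠ k in UF, ∀ ω, (S.F k).μ ω ≠ 0 → ∀ p,
      ‖((Q.v k ω p : ℝ) : ℂ) - (d k).G ω p (rc ((d k).Y (Y.v k) ω))‖ ≤ B k * S.dl b k := by
  classical
  -- the smallest good exponent
  set P : ℕ → ℝ → Prop := fun k B => 0 ≤ B ∧ (∀ ω, (S.F k).μ ω ≠ 0 → ∀ p, ∀ y ∈ ball (0 : Fin e → ℂ) 5,
    ‖(d k).G ω p y‖ ≤ B) ∧ ∀ ω, (S.F k).μ ω ≠ 0 → ∀ p,
      ‖((Q.v k ω p : ℝ) : ℂ) - (d k).G ω p (rc ((d k).Y (Y.v k) ω))‖ ≤ B * S.dl b k with hP
  have hcl : ∀ k, (∃ B, P k B) → P k (sInf {B | P k B}) := by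
    intro k ⟨B0, hB0⟩
    have hbd : BddBelow {B | P k B} := ⟨0, fun B hB => hB.1⟩
    have hne : {B | P k B}.Nonempty := ⟨B0, hB0⟩
    refine ⟨le_csInf hne fun B hB => hB.1, fun ω hω p y hy => le_csInf hne fun B hB => hB.2.1 ω hω p y hy,
      fun ω hω p => ?_⟩
    rw [← div_le_iff₀ (S.dl_pos b k)]
    exact le_csInf hne fun B hB => by
      rw [div_le_iff₀ (S.dl_pos b k)]
      exact hB.2.2 ω hω p
  have hex : ∀ η : ℝ, 0 < η → ∀ᶠ k in UF, P k (2 ^ (η * (S.F k).n)) := by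
    intro η hη
    filter_upwards [x η hη] with k hk
    exact ⟨by positivity, hk.bG, hk.pt⟩
  refine ⟨fun k => sInf {B | P k B}, sub_of ?_ (fun η hη => ?_), ?_, ?_⟩
  · filter_upwards [hex 1 one_pos] with k hk
    exact (hcl k ⟨_, hk⟩).1
  · filter_upwards [hex η hη] with k hk
    exact csInf_le ⟨0, fun B hB => hB.1⟩ hk
  · filter_upwards [hex 1 one_pos] with k hk
    exact (hcl k ⟨_, hk⟩).2.1
  · filter_upwards [hex 1 one_pos] with k hk
    exact (hcl k ⟨_, hk⟩).2.2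

/-- the label has entropy `o(n)` over `V` -/
lemma ent (x : PSeq V Q Y pin b D d) :
    Tendsto (fun k => h (fc (pLa V d k)) (fc (V k)) / (S.F k).n) UF (𝓝 0) := by
  rw [Metric.tendsto_nhds]
  intro ε hε
  filter_upwards [x (ε / 2) (by linarith)] with k hk
  have hn : 0 < (S.F k).n := (S.F k).pos
  rw [Real.dist_eq, sub_zero, abs_of_nonneg (div_nonneg (h_nonneg _ _) hn.le), div_lt_iff₀ hn, h_fc]
  have h1 : (S.F k).e (pLa V d k) (V k ⊓ (S.F k).Z) ≤ (S.F k).e (d k).R (V k ⊓ (S.F k).Z) := by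
    have h2 := (S.F k).e_sup_le (V k) (d k).R (V k ⊓ (S.F k).Z)
    have h3 : (S.F k).e (V k) (V k ⊓ (S.F k).Z) = 0 := (S.F k).e_zero fun ω ω' _ _ h => h.1
    rw [h3, zero_add] at h2
    exact h2
  have h2 := hk.en
  nlinarith

lemma vb (x : PSeq V Q Y pin b D d) (hV : S.VB V) : S.VB (pLa V d) := by
  apply hV.inf
  refine ⟨cV M e, ?_⟩
  filter_upwards [x 1 one_pos] with k hk
  exact hk.nv

/-- the parameters are full -/
lemma ful (x : PSeq V Q Y pin b D d) (hb : 0 < b) : Tendsto (fun k => h (fc (Setoid.ker (x.P.cellv b k)))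
    (fc (pLa V d k)) / (S.F k).n) UF (𝓝 (e * b)) := by
  rw [Metric.tendsto_nhds]
  intro ε hε
  have h2 := h_celm_le x.P (fun _ => 0) (fun _ => b) (fun _ => hb.le) (pLa V d) (fun _ => 1) (S.Sub_const zero_le_one) (by
    filter_upwards [x 1 one_pos] with k hk ω ω' _ _ _ _ i
    rw [S.dl_zero, mul_one]
    have h3 := hk.uY ω i
    have h4 := hk.uY ω' i
    show |(d k).Y (Y.v k) ω i - (d k).Y (Y.v k) ω' i| ≤ 1
    rw [abs_le]
    constructor <;> linarith [h3.1, h3.2, h4.1, h4.2]) (ε / 2) (by linarith)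
  filter_upwards [h2, x (ε / 2) (by linarith)] with k a hk
  have hn : 0 < (S.F k).n := (S.F k).pos
  rw [Real.dist_eq, abs_lt]
  have e1 : ∑ _i : Fin e, (b - 0) = e * b := by simp
  rw [celm_const, e1] at a
  have h3 := hk.ful
  have h4 : (e * b - ε / 2) ≤ h (fc (Setoid.ker (x.P.cellv b k))) (fc (pLa V d k)) / (S.F k).n := by
    rw [le_div_iff₀ hn, h_fc]
    exact h3
  constructor <;> linarith

/-- the parameters are full at the resolution `b` -/
lemma fulc (x : PSeq V Q Y pin b D d) (hb : 0 < b) :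
    Tendsto (fun k => h (fc (F := (S.chg S.tr b hb).F k) (Setoid.ker ((x.P.chg S.tr b hb).cellv 1 k)))
      (fc (pLa V d k)) / ((S.chg S.tr b hb).F k).n) UF (𝓝 e) := by
  have h2 := (x.ful hb).const_mul b⁻¹
  have e1 : b⁻¹ * ((e : ℝ) * b) = e := by
    field_simp
  rw [e1] at h2
  refine h2.congr fun k => ?_
  have e2 := h_chg_top b hb (F := S.F k) (Setoid.ker (x.P.cellv b k)) (pLa V d k)
  show b⁻¹ * (h (fc (Setoid.ker (x.P.cellv b k))) (fc (pLa V d k)) / (S.F k).n) =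
    h (fc (F := (S.F k).chg ⊤ b hb) (Setoid.ker ((x.P.chg S.tr b hb).cellv 1 k))) (fc (pLa V d k)) / (b * (S.F k).n)
  have e3 : (x.P.chg S.tr b hb).cellv 1 k = x.P.cellv b k := (cellv_chg x.P b hb 1 k).trans (by rw [mul_one])
  have e4 : h (fc (F := (S.F k).chg ⊤ b hb) (Setoid.ker ((x.P.chg S.tr b hb).cellv 1 k))) (fc (pLa V d k)) =
      h (fc (Setoid.ker (x.P.cellv b k))) (fc (pLa V d k)) :=
    (congrArg (fun f => h (fc (F := (S.F k).chg ⊤ b hb) (Setoid.ker f)) (fc (pLa V d k))) e3).trans e2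
  have e5 : ∀ x n : ℝ, b⁻¹ * (x / n) = x / (b * n) := by
    intro x n
    rw [← div_div, div_right_comm, div_eq_inv_mul (x / n)]
  exact (e5 _ _).trans (congrArg (fun x => x / (b * (S.F k).n)) e4.symm)

/-- the leaf at the resolution `b` -/
def leaf (x : PSeq V Q Y pin b D d) (hb : 0 < b) (heM : e ≤ M) :
    Leaf (S.chg S.tr b hb) (Q.chg S.tr b hb) (Pool.Agent.Helper84.MT.lin (1 * cA M (M + M) D)) :=
  Leaf.ofAlgRe (S := S.chg S.tr b hb) (Q := Q.chg S.tr b hb) M D e heM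
    (fun k => pLa V d k) (x.P.chg S.tr b hb) (fun k ω => (d k).G ω)
    (by
      filter_upwards [x 1 one_pos] with k hk w w' h1 h2 h3 h4
      exact (hk.fn w w' h1 h2 h3.2 h4.1 h4.2).1)
    (by
      obtain ⟨B, hB, h1, -⟩ := x.exists_B
      refine ⟨B, chg_sub S.tr b hb hB, ?_⟩
      filter_upwards [h1, x 1 one_pos] with k hk hk' w hw y hy j
      refine (Complex.abs_re_le_norm _).trans (hk w hw j _ ?_)
      apply ball_sub (hk'.uY w) le_rfl
      rw [mem_ball, dist_eq_norm]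
      refine lt_of_le_of_lt (b := 1) ?_ (by norm_num)
      rw [pi_norm_le_iff_of_nonneg zero_le_one]
      intro i
      rw [Pi.sub_apply, ← Complex.ofReal_sub, Complex.norm_real, Real.norm_eq_abs]
      exact hy i)
    (fun k ω j => qA D 5 ((d k).G ω j))
    (by
      filter_upwards [x 1 one_pos] with k hk w hw
      exact qA_ach' (hk.uY w) le_rfl (hk.dG w) (hk.aG w))
    (by
      obtain ⟨B, hB, -, h1⟩ := x.exists_B
      refine ⟨B, chg_sub S.tr b hb hB, ?_⟩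
      filter_upwards [h1] with k hk w hw j
      rw [chg_dl, mul_one]
      refine le_trans ?_ (hk w hw j)
      have h3 := Complex.abs_re_le_norm (((Q.v k w j : ℝ) : ℂ) - (d k).G w j (rc ((d k).Y (Y.v k) w)))
      rw [Complex.sub_re, Complex.ofReal_re] at h3
      exact h3)
    (x.fulc hb)

end PSeq

/-- THE LEAF over full parameters: `La` refines `V` with entropy `o(n)`, its parameters are the rescaled raw parameters `Y`
(`N` is tame, `c` is the grid cell), the chart of a pinned coordinate is the inverse of the rescaling, and typically `La`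
is known to the base, `V`, the grid cell and an index with `L` values -/
structure PLeaf (V : ∀ k, Setoid (S.F k).Ω) (Q : S.VV M) (Y : S.VV e)
    (pin : ∀ k, (S.F k).Ω → Fin M → Option (Fin e)) (b : ℝ) (hb : 0 < b) (g L : ℕ)
    (La : ∀ k, Setoid (S.F k).Ω) (P : S.VV e) (N : ℕ → ℝ) (c : ∀ k, (S.F k).Ω → Fin e → ℤ)
    (β : ∀ k, (S.F k).Ω → Fin L) (A : ∀ k, (S.F k).Ω → Prop)
    (f : Leaf (S.chg S.tr b hb) (Q.chg S.tr b hb) (Pool.Agent.Helper84.MT.lin g)) : Prop where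
  he : f.e = e
  eLa : f.La = La
  par : ∀ k ω (j : Fin e), f.Y.v k ω (Fin.cast he.symm j) = P.v k ω j
  chart : ∀ᶠ k in UF, ∀ (ω : (S.F k).Ω) (y : Fin f.e → ℝ) (p : Fin M) (j : Fin e), pin k ω p = some j →
    f.F k ω y p = (c k ω j + y (Fin.cast he.symm j)) / N k
  le : ∀ k, La k ≤ V k
  vb : S.VB V → S.VB La
  ent : Tendsto (fun k => h (fc (La k)) (fc (V k)) / (S.F k).n) UF (𝓝 0)
  N1 : ∀ᶠ k in UF, 1 ≤ N k
  subN : S.Sub N
  eP : ∀ k ω j, P.v k ω j = N k * Y.v k ω j - c k ω j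
  uP : ∀ᶠ k in UF, ∀ ω j, 0 ≤ P.v k ω j ∧ P.v k ω j ≤ 1
  msc : ∀ᶠ k in UF, ∀ ω ω', (S.F k).μ ω ≠ 0 → (S.F k).μ ω' ≠ 0 → (S.F k).Z ω ω' → La k ω ω' → c k ω = c k ω'
  fl : ∀ᶠ k in UF, ∀ ω j, c k ω j = ⌊N k * Y.v k ω j⌋
  tA : Typ A
  idx : ∀ k ω ω', A k ω → A k ω' → V k ω ω' → c k ω = c k ω' → β k ω = β k ω' → La k ω ω'

/-- LEAVES FROM FULL PARAMETERS -/
theorem pleaf [Nonempty κ] {V : ∀ k, Setoid (S.F k).Ω} {Q : S.VV M} {Y : S.VV e}
    {pin : ∀ k, (S.F k).Ω → Fin M → Option (Fin e)} {b : ℝ} (hb : 0 < b) (hb1 : b ≤ 1) (heM : e ≤ M)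
    (hD : 1 ≤ D) (x : ChF V Q Y pin b D κ) :
    ∃ (La : ∀ k, Setoid (S.F k).Ω) (P : S.VV e) (N : ℕ → ℝ) (c : ∀ k, (S.F k).Ω → Fin e → ℤ)
      (β : ∀ k, (S.F k).Ω → Fin (nC κ)) (A : ∀ k, (S.F k).Ω → Prop)
      (f : Leaf (S.chg S.tr b hb) (Q.chg S.tr b hb) (Pool.Agent.Helper84.MT.lin (1 * cA M (M + M) D))),
      PLeaf V Q Y pin b hb (1 * cA M (M + M) D) (nC κ) La P N c β A f := by
  classical
  obtain ⟨d, s⟩ := exists_pseq hb hb1 hD x
  -- the good event, made empty where the data are bad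
  set A : ∀ k, (S.F k).Ω → Prop := fun k ω => (d k).A ω ∧ PQ (S.F k) (V k) (Q.v k) (Y.v k) (pin k) b D 1 (d k) with hA
  refine ⟨pLa V d, s.P, fun k => (d k).N, fun k => (d k).c, fun k => (d k).β, A, s.leaf hb heM, ⟨rfl, rfl,
    fun _ _ _ => rfl, ?_, fun k => inf_le_left, s.vb, s.ent, ?_, s.subN, fun _ _ _ => rfl, ?_, ?_, ?_, ?_, ?_⟩⟩
  · filter_upwards [s 1 one_pos] with k hk ω y p j hp
    have h1 := hk.sG ω p j hp
    show ((d k).G ω p (fun i => (y i : ℂ))).re = _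
    rw [h1]
    have h2 : (((d k).c ω j : ℤ) : ℂ) + ((y j : ℝ) : ℂ) = ((((d k).c ω j : ℝ) + y j : ℝ) : ℂ) := by push_cast; rfl
    show (((((d k).c ω j : ℤ) : ℂ) + ((y j : ℝ) : ℂ)) / (((d k).N : ℝ) : ℂ)).re = _
    rw [h2, ← Complex.ofReal_div, Complex.ofReal_re]
    rfl
  · filter_upwards [s 1 one_pos] with k hk
    exact hk.N1
  · filter_upwards [s 1 one_pos] with k hk ω j
    exact hk.uY ω j
  · filter_upwards [s 1 one_pos] with k hk ω ω' h1 h2 h3 h4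
    exact (hk.fn ω ω' h1 h2 h3 h4.1 h4.2).2
  · filter_upwards [s 1 one_pos] with k hk ω j
    exact hk.cf ω j
  · rw [Typ, Metric.tendsto_nhds]
    intro η hη
    filter_upwards [s (η / 2) (by linarith), s 1 one_pos] with k h1 h2
    have h3 : (fun ω => ¬ A k ω) = fun ω => ¬ (d k).A ω := by
      funext ω
      apply propext
      constructor
      · exact fun h h' => h ⟨h', h2⟩
      · exact fun h h' => h h'.1
    have h4 := h1.mA
    show dist (mass (res (S.F k).μ (fun ω => ¬ A k ω))) 0 < η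
    rw [h3]
    have h5 : 0 ≤ mass (res (S.F k).μ (fun ω => ¬ (d k).A ω)) := by
      unfold mass
      apply Finset.sum_nonneg
      intro ω _
      unfold res
      split_ifs
      · exact (S.F k).nn ω
      · exact le_rfl
    rw [Real.dist_eq, sub_zero, abs_of_nonneg h5]
    linarith
  · intro k ω ω' h1 h2 h3 h4 h5
    exact ⟨h3, h1.2.cd ω ω' h1.1 h2.1 h4 h5⟩

end

end Pool.Agent.Helper76.LG
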