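import Pool.Agent.Helper76.LG.Rtb

/-! LEAVES FROM FULL PARAMETERS at the full resolution, for a point near the given one. -/

set_option autoImplicit false

namespace Pool.Agent.Helper76.LG

open Finset Filter Topology Matrix Metric Pool.Agent.Helper69.RK Pool.Agent.Helper31.EC Pool.Agent.Helper31.EC.Sp
open Pool.Agent.Helper40.EL Pool.Agent.Helper89.LX Pool.Agent.Helper3.LF Pool.Agent.Helper84.MT
open Pool.Agent.Helper63.FRT
open Pool.Agent.Helper76.RL (AlgR algR_const algR_mono rc ev qA qA_ach sub_of ball_sub)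
open Pool.Agent.Helper76.DIM
open Pool.Agent.Helper85.OA

noncomputable section

variable {S : Sp} {M e D L : ℕ} {κ : Type} [Fintype κ]

namespace PSeq

variable {V : ∀ k, Setoid (S.F k).Ω} {Q : S.VV M} {Y : S.VV e} {pin : ∀ k, (S.F k).Ω → Fin M → Option (Fin e)}
  {d : ∀ k, PD (S.F k) M e L}

/-- the leaf at the full resolution, for the point `Qt` near `Q` -/
def leaf1 (x : PSeq V Q Y pin 1 D d) (heM : e ≤ M) (Qt : S.VV M) (hQt : ∃ K : ℕ → ℝ, S.Sub K ∧ ∀ᶠ k in UF, ∀ ω,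
    (S.F k).μ ω ≠ 0 → ∀ i, |Qt.v k ω i - Q.v k ω i| ≤ K k * S.dl 1 k) :
    Leaf S Qt (Pool.Agent.Helper84.MT.lin (1 * cA M (M + M) D)) :=
  Leaf.ofAlgRe (S := S) (Q := Qt) M D e heM
    (fun k => pLa V d k) x.P (fun k ω => (d k).G ω)
    (by
      filter_upwards [x 1 one_pos] with k hk w w' h1 h2 h3 h4
      exact (hk.fn w w' h1 h2 h3 h4.1 h4.2).1)
    (by
      obtain ⟨B, hB, h1, -⟩ := x.exists_B
      refine ⟨B, hB, ?_⟩
      filter_upwards [h1, x 1 one_pos] with k hk hk' w hw y hy j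
      refine (Complex.abs_re_le_norm _).trans (hk w hw j _ ?_)
      apply ball_sub (hk'.uY w) le_rfl
      rw [mem_ball, dist_eq_norm]
      refine lt_of_le_of_lt (b := 1) ?_ (by norm_num)
      rw [pi_norm_le_iff_of_nonneg zero_le_one]
      intro i
      rw [Pi.sub_apply, ← Complex.ofReal_sub, Complex.norm_real, Real.norm_eq_abs]
      exact hy i)
    (fun k ω j => qA D 5 ((d k).G ω j))
    (by
      filter_upwards [x 1 one_pos] with k hk w hw
      exact qA_ach' (hk.uY w) le_rfl (hk.dG w) (hk.aG w))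
    (by
      obtain ⟨B, hB, -, h1⟩ := x.exists_B
      obtain ⟨K, hK, h2⟩ := hQt
      refine ⟨fun k => B k + K k, hB.add hK, ?_⟩
      filter_upwards [h1, h2] with k hk hk' w hw j
      have h3 := Complex.abs_re_le_norm (((Q.v k w j : ℝ) : ℂ) - (d k).G w j (rc ((d k).Y (Y.v k) w)))
      rw [Complex.sub_re, Complex.ofReal_re] at h3
      have h4 := h3.trans (hk w hw j)
      have h5 := hk' w hw j
      have h6 := abs_add_le (Qt.v k w j - Q.v k w j) (Q.v k w j - ((d k).G w j (rc ((d k).Y (Y.v k) w))).re)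
      rw [sub_add_sub_cancel] at h6
      rw [add_mul]
      refine h6.trans ?_
      linarith)
    (by
      have h := x.ful one_pos
      rwa [mul_one] at h)

end PSeq

/-- THE LEAF over full parameters at the full resolution, for the point `Qt` near `Q` -/
structure PLeaf1 (V : ∀ k, Setoid (S.F k).Ω) (Qt : S.VV M) (Y : S.VV e)
    (pin : ∀ k, (S.F k).Ω → Fin M → Option (Fin e)) (g L : ℕ)
    (La : ∀ k, Setoid (S.F k).Ω) (P : S.VV e) (N : ℕ → ℝ) (c : ∀ k, (S.F k).Ω → Fin e → ℤ)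
    (β : ∀ k, (S.F k).Ω → Fin L) (A : ∀ k, (S.F k).Ω → Prop)
    (f : Leaf S Qt (Pool.Agent.Helper84.MT.lin g)) : Prop where
  he : f.e = e
  eLa : f.La = La
  par : ∀ k ω (j : Fin e), f.Y.v k ω (Fin.cast he.symm j) = P.v k ω j
  chart : ∀ᶠ k in UF, ∀ (ω : (S.F k).Ω) (y : Fin f.e → ℝ) (p : Fin M) (j : Fin e), pin k ω p = some j →
    f.F k ω y p = (c k ω j + y (Fin.cast he.symm j)) / N k
  le : ∀ k, La k ≤ V k
  vb : S.VB V → S.VB La
  ent : Tendsto (fun k => h (fc (La k)) (fc (V k)) / (S.F k).n) UF (𝓝 0)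
  N1 : ∀ᶠ k in UF, 1 ≤ N k
  subN : S.Sub N
  eP : ∀ k ω j, P.v k ω j = N k * Y.v k ω j - c k ω j
  uP : ∀ᶠ k in UF, ∀ ω j, 0 ≤ P.v k ω j ∧ P.v k ω j ≤ 1
  msc : ∀ᶠ k in UF, ∀ ω ω', (S.F k).μ ω ≠ 0 → (S.F k).μ ω' ≠ 0 → (S.F k).Z ω ω' → La k ω ω' → c k ω = c k ω'
  fl : ∀ᶠ k in UF, ∀ ω j, c k ω j = ⌊N k * Y.v k ω j⌋
  tA : Typ A
  idx : ∀ k ω ω', A k ω → A k ω' → V k ω ω' → c k ω = c k ω' → β k ω = β k ω' → La k ω ω'

/-- LEAVES FROM FULL PARAMETERS, full resolution -/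
theorem pleaf1 [Nonempty κ] {V : ∀ k, Setoid (S.F k).Ω} {Q : S.VV M} {Y : S.VV e}
    {pin : ∀ k, (S.F k).Ω → Fin M → Option (Fin e)} (heM : e ≤ M)
    (hD : 1 ≤ D) (x : ChF V Q Y pin 1 D κ) (Qt : S.VV M) (hQt : ∃ K : ℕ → ℝ, S.Sub K ∧ ∀ᶠ k in UF, ∀ ω,
    (S.F k).μ ω ≠ 0 → ∀ i, |Qt.v k ω i - Q.v k ω i| ≤ K k * S.dl 1 k) :
    ∃ (La : ∀ k, Setoid (S.F k).Ω) (P : S.VV e) (N : ℕ → ℝ) (c : ∀ k, (S.F k).Ω → Fin e → ℤ)
      (β : ∀ k, (S.F k).Ω → Fin (nC κ)) (A : ∀ k, (S.F k).Ω → Prop)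
      (f : Leaf S Qt (Pool.Agent.Helper84.MT.lin (1 * cA M (M + M) D))),
      PLeaf1 V Qt Y pin (1 * cA M (M + M) D) (nC κ) La P N c β A f := by
  classical
  obtain ⟨d, s⟩ := exists_pseq one_pos le_rfl hD x
  -- the good event, made empty where the data are bad
  set A : ∀ k, (S.F k).Ω → Prop := fun k ω => (d k).A ω ∧ PQ (S.F k) (V k) (Q.v k) (Y.v k) (pin k) 1 D 1 (d k) with hA
  refine ⟨pLa V d, s.P, fun k => (d k).N, fun k => (d k).c, fun k => (d k).β, A, s.leaf1 heM Qt hQt, ⟨rfl, rfl,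
    fun _ _ _ => rfl, ?_, fun k => inf_le_left, s.vb, s.ent, ?_, s.subN, fun _ _ _ => rfl, ?_, ?_, ?_, ?_, ?_⟩⟩
  · filter_upwards [s 1 one_pos] with k hk ω y p j hp
    have h1 := hk.sG ω p j hp
    show ((d k).G ω p (fun i => (y i : ℂ))).re = _
    rw [h1]
    have h2 : (((d k).c ω j : ℤ) : ℂ) + ((y j : ℝ) : ℂ) = ((((d k).c ω j : ℝ) + y j : ℝ) : ℂ) := by push_cast; rfl
    show (((((d k).c ω j : ℤ) : ℂ) + ((y j : ℝ) : ℂ)) / (((d k).N : ℝ) : ℂ)).re = _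
    rw [h2, ← Complex.ofReal_div, Complex.ofReal_re]
    rfl
  · filter_upwards [s 1 one_pos] with k hk
    exact hk.N1
  · filter_upwards [s 1 one_pos] with k hk ω j
    exact hk.uY ω j
  · filter_upwards [s 1 one_pos] with k hk ω ω' h1 h2 h3 h4
    exact (hk.fn ω ω' h1 h2 h3 h4.1 h4.2).2
  · filter_upwards [s 1 one_pos] with k hk ω j
    exact hk.cf ω j
  · rw [Typ, Metric.tendsto_nhds]
    intro η hη
    filter_upwards [s (η / 2) (by linarith), s 1 one_pos] with k h1 h2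
    have h3 : (fun ω => ¬ A k ω) = fun ω => ¬ (d k).A ω := by
      funext ω
      apply propext
      constructor
      · exact fun h h' => h ⟨h', h2⟩
      · exact fun h h' => h h'.1
    have h4 := h1.mA
    show dist (mass (res (S.F k).μ (fun ω => ¬ A k ω))) 0 < η
    rw [h3]
    have h5 : 0 ≤ mass (res (S.F k).μ (fun ω => ¬ (d k).A ω)) := by
      unfold mass
      apply Finset.sum_nonneg
      intro ω _
      unfold res
      split_ifs
      · exact (S.F k).nn ω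
      · exact le_rfl
    rw [Real.dist_eq, sub_zero, abs_of_nonneg h5]
    linarith
  · intro k ω ω' h1 h2 h3 h4 h5
    exact ⟨h3, h1.2.cd ω ω' h1.1 h2.1 h4 h5⟩

end

end Pool.Agent.Helper76.LG
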